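import Mathlib
import Pool.Agent.FS.PairDegree.Core

namespace Pool.Agent.Results.MP_b50c09_co.PairDegreeNeeded

open Pool.Agent.FS.PairDegree

/-- For every `N` there is a vertex-regular 3-graph on `n ≥ N` vertices, of degree at least
`n ^ 2 / 9`, in which for every `t ≥ 2` every packing of the complete tripartite 3-graph
`K(t,t,t)` leaves at least `sqrt (n / 12)` vertices uncovered. -/
theorem result (N : ℕ) :
    ∃ (V : Type) (_ : Fintype V) (_ : DecidableEq V) (G : Finset (Finset V)) (d : ℕ),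
      N ≤ Fintype.card V ∧
      (∀ e ∈ G, e.card = 3) ∧
      (∀ v : V, (G.filter (fun e => v ∈ e)).card = d) ∧
      Fintype.card V ^ 2 ≤ 9 * d ∧
      ∀ t : ℕ, 2 ≤ t → ∀ P : Finset (Fin 3 × Fin t ↪ V),
        (∀ f ∈ P, ∀ i j k : Fin t, ({f (0, i), f (1, j), f (2, k)} : Finset V) ∈ G) →
        (∀ f ∈ P, ∀ g ∈ P, f ≠ g → Disjoint (Finset.univ.map f) (Finset.univ.map g)) →
        Fintype.card V
          ≤ 12 * (Finset.univ.filter (fun v : V => ∀ f ∈ P, v ∉ Finset.univ.map f)).card ^ 2 := by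
  classical
  obtain ⟨A, B, C, _, _, _, S, hs, hi, hl, hq, hB, hA, hA'⟩ := exists_design N
  have hN : N < 2 ^ N := Nat.lt_two_pow_self
  have hV : Fintype.card (A ⊕ B ⊕ C) = 3 * Fintype.card B := by
    rw [Fintype.card_sum, Fintype.card_sum]; omega
  refine ⟨A ⊕ B ⊕ C, inferInstance, inferInstance, edges (rel S),
    Fintype.card A * Fintype.card B, by omega, fun e he => ((mem_edges _ _).1 he).1, ?_, ?_, ?_⟩
  · intro v
    have h1 := two_mul_degree (rel S) (rel_s1 S hs) (rel_s2 S hs) (rel_ir (C := C) S hi) v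
    have h2 := link_card S (2 ^ N) (fun b a => by
      rw [← hq b a, Nat.card_eq_fintype_card, Fintype.card_subtype]) hB hA v
    have h3 := h1.trans h2
    have h4 := Nat.eq_of_mul_eq_mul_left (by norm_num) h3
    convert h4
  · rw [hV]
    have : Fintype.card B ≤ Fintype.card A := by omega
    nlinarith
  · intro t ht P hP hd
    have h := packing_le S hs hl (2 ^ N) hB hA ht P hP hd
    have h2 := Nat.pow_le_pow_left h 2
    have h3 : Fintype.card (A ⊕ B ⊕ C) ≤ 12 * (2 ^ N) ^ 2 := by omega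
    refine h3.trans (Nat.mul_le_mul_left _ ?_)
    convert h2

end Pool.Agent.Results.MP_b50c09_co.PairDegreeNeeded
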