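import Mathlib
import Pool.Agent.Lib.MP_b50c09_co.K.Copies

set_option autoImplicit false

namespace Pool.Agent.Results.MP_b50c09_co.UniformPacking

open Pool.Agent.Lib.MP_b50c09_co.K

/-- For every `k ≥ 3`, every `k`-partite `k`-graph `H` (on a nonempty vertex set) and every
`c > 0` there are `ε > 0` and `C > 0` such that every `k`-graph `G` on `n` vertices whose vertex
degrees differ by at most `ε n ^ (k - 1)` and in which every set of `k - 1` vertices has degree at
least `c n` has an `H`-packing covering all but at most `C` vertices. -/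
theorem result :
    ∀ k : ℕ, 3 ≤ k →
    ∀ (U : Type) [Fintype U] [DecidableEq U] [Nonempty U] (H : Finset (Finset U)),
      (∀ e ∈ H, e.card = k) →
      (∃ part : U → Fin k, ∀ e ∈ H, ∀ i : Fin k, (e.filter (fun u => part u = i)).card = 1) →
      ∀ c : ℝ, 0 < c →
      ∃ ε : ℝ, 0 < ε ∧ ∃ C : ℝ, 0 < C ∧
        ∀ (V : Type) [Fintype V] [DecidableEq V] (G : Finset (Finset V)),
          (∀ e ∈ G, e.card = k) →
          (∀ u v : V, ((G.filter (fun e => u ∈ e)).card : ℝ)
            ≤ ((G.filter (fun e => v ∈ e)).card : ℝ) + ε * (Fintype.card V : ℝ) ^ (k - 1)) →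
          (∀ S : Finset V, S.card = k - 1 → c * (Fintype.card V : ℝ)
            ≤ ((Finset.univ.filter (fun w : V => w ∉ S ∧ insert w S ∈ G)).card : ℝ)) →
          ∃ P : Finset (U ↪ V),
            (∀ f ∈ P, ∀ e ∈ H, e.map f ∈ G) ∧
            (∀ f ∈ P, ∀ g ∈ P, f ≠ g → Disjoint (Finset.univ.map f) (Finset.univ.map g)) ∧
            ((Finset.univ.filter (fun v : V => ∀ f ∈ P, v ∉ Finset.univ.map f)).card : ℝ)
              ≤ C := by
  intro k hk U _ _ _ H _ hpart c hc
  obtain ⟨r, rfl⟩ : ∃ r, k = r + 2 := ⟨k - 2, by omega⟩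
  obtain ⟨part, hpart⟩ := hpart
  obtain ⟨d, hd, C, hC⟩ := reach_small r (Fintype.card U) (by omega) Fintype.card_pos (min c 1)
    (lt_min hc one_pos) (min_le_right _ _)
  have hf : (0 : ℝ) < ((r + 1).factorial : ℝ) := by exact_mod_cast Nat.factorial_pos _
  refine ⟨d / ((r + 1).factorial : ℝ), by positivity, C + 1, by positivity, ?_⟩
  intro V _ _ G hG hdeg hcod
  have e1 : r + 2 - 1 = r + 1 := rfl
  rw [e1] at hdeg hcod
  obtain ⟨W, hW, hWc⟩ := hC V (OE (r + 2) G) Finset.univ (symK_of hG)
    (by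
      intro l hl hnd
      have hlen := ((mem_lists _ _ l).mp hl).1
      have h1 := hcod l.toFinset (by rw [List.toFinset_card_of_nodup hnd, hlen])
      have h2 : min c 1 * (Fintype.card V : ℝ) ≤ c * (Fintype.card V : ℝ) :=
        mul_le_mul_of_nonneg_right (min_le_left _ _) (by positivity)
      rw [Finset.card_univ]
      exact h2.trans (h1.trans (cod_ge (j := r + 1) hG l hlen)))
    (by
      intro u _ v _
      rw [dg_eq (j := r + 1) hG, dg_eq (j := r + 1) hG, Finset.card_univ]
      have h1 := mul_le_mul_of_nonneg_left (hdeg u v) hf.le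
      have e2 : ((r + 1).factorial : ℝ) * (d / ((r + 1).factorial : ℝ) *
          (Fintype.card V : ℝ) ^ (r + 1)) = d * (Fintype.card V : ℝ) ^ (r + 1) := by
        field_simp
      rw [mul_add, e2] at h1
      exact h1)
  obtain ⟨P, p1, p2, _, p4⟩ := packing_of_reach (j := r + 1) H hG part hpart _ _ hW
  refine ⟨P, p1, p2, ?_⟩
  have hsub : Finset.univ.filter (fun v : V => ∀ f ∈ P, v ∉ Finset.univ.map f) ⊆ W := by
    intro v hv
    rw [Finset.mem_filter] at hv
    by_contra hvW
    obtain ⟨f, hf, hvf⟩ := p4 v hv.1 hvW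
    exact hv.2 f hf hvf
  have h1 := le_trans (Finset.card_le_card hsub) hWc
  have h2 : ((Finset.univ.filter (fun v : V => ∀ f ∈ P, v ∉ Finset.univ.map f)).card : ℝ)
      ≤ C := by exact_mod_cast h1
  linarith

end Pool.Agent.Results.MP_b50c09_co.UniformPacking
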